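import Mathlib

set_option autoImplicit false

namespace Pool.Agent.Results.MP_c5a801_co.AllTransient

/-- `ρ v` is the successor map of a cyclic ordering of the neighbours of `v` -/
def IsMechanism {V : Type} (G : SimpleGraph V) (ρ : V → V → V) : Prop :=
  ∀ v, Set.BijOn (ρ v) (G.neighborSet v) (G.neighborSet v) ∧
    ∀ a ∈ G.neighborSet v, ∀ b ∈ G.neighborSet v, ∃ k : ℕ, (ρ v)^[k] a = b

open Classical in
/-- one step of the rotor walk on states (position, rotor configuration) -/
noncomputable def step {V : Type} (ρ : V → V → V) (s : V × (V → V)) : V × (V → V) :=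
  (ρ s.1 (s.2 s.1), Function.update s.2 s.1 (ρ s.1 (s.2 s.1)))

abbrev W : Type := {p : ℕ × ℕ // p.2 < 2 ^ p.1}

def G : SimpleGraph W where
  Adj a b := a.1.1 + 1 = b.1.1 ∨ b.1.1 + 1 = a.1.1
  symm := ⟨fun _ _ h => h.symm⟩
  loopless := ⟨fun _ h => by omega⟩

def mk (n k : ℕ) : W := ⟨(n, k % 2 ^ n), Nat.mod_lt _ (by positivity)⟩

def deg (n : ℕ) : ℕ := if n = 0 then 2 else 5 * 2 ^ (n - 1)

def pos (n : ℕ) (a : W) : ℕ :=
  if n = 0 then a.1.2 else if a.1.1 < n then 5 * a.1.2 else 5 * (a.1.2 / 4) + a.1.2 % 4 + 1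

def nb (n j : ℕ) : W :=
  if n = 0 then mk 1 j else if j % 5 = 0 then mk (n - 1) (j / 5)
    else mk (n + 1) (4 * (j / 5) + j % 5 - 1)

def rho (v a : W) : W := nb v.1.1 ((pos v.1.1 a + 1) % deg v.1.1)

theorem deg_pos (n : ℕ) : 0 < deg n := by
  unfold deg; split_ifs <;> positivity

theorem pw (n : ℕ) (h : n ≠ 0) : 2 ^ (n + 1) = 4 * 2 ^ (n - 1) := by
  obtain ⟨m, rfl⟩ := Nat.exists_eq_succ_of_ne_zero h
  simp [pow_succ]; ring

theorem nb_adj (v : W) (j : ℕ) : G.Adj v (nb v.1.1 j) := by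
  change _ ∨ _
  unfold nb
  split_ifs <;> simp [mk] <;> omega

theorem pos_nb (n j : ℕ) (h : j < deg n) : pos n (nb n j) = j := by
  unfold deg at h
  unfold pos nb
  by_cases h0 : n = 0
  · simp only [h0, if_true, mk] at h ⊢
    omega
  · simp only [h0, if_false] at h ⊢
    have := pw n h0
    by_cases h1 : j % 5 = 0
    · simp only [h1, if_true, mk]
      rw [if_pos (by omega), Nat.mod_eq_of_lt (by omega)]
      omega
    · simp only [h1, if_false, mk]
      rw [if_neg (by omega), Nat.mod_eq_of_lt (a := 4 * (j / 5) + j % 5 - 1) (by omega)]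
      omega

theorem pos_spec (v a : W) (h : G.Adj v a) :
    pos v.1.1 a < deg v.1.1 ∧ nb v.1.1 (pos v.1.1 a) = a := by
  obtain ⟨⟨m, k⟩, hk⟩ := a
  obtain ⟨⟨n, i⟩, hi⟩ := v
  change n + 1 = m ∨ m + 1 = n at h
  simp only [deg, pos, nb] at hk ⊢
  by_cases h0 : n = 0
  · obtain rfl : m = 1 := by omega
    simp only [h0, if_true, mk]
    exact ⟨hk, Subtype.ext (by simp only [Nat.mod_eq_of_lt hk])⟩
  · simp only [h0, if_false]
    have := pw n h0
    rcases h with rfl | rfl
    · rw [if_neg (by omega), if_neg (by omega)]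
      refine ⟨by omega, Subtype.ext ?_⟩
      simp only [mk, Prod.mk.injEq, true_and]
      rw [Nat.mod_eq_of_lt (by omega)]
      omega
    · rw [if_pos (by omega), if_pos (by omega)]
      simp only [Nat.add_sub_cancel]
      refine ⟨by omega, Subtype.ext ?_⟩
      simp only [mk, Prod.mk.injEq, true_and]
      rw [Nat.mod_eq_of_lt (by omega)]
      omega

theorem iter (v a : W) (h : G.Adj v a) (k : ℕ) :
    (rho v)^[k] a = nb v.1.1 ((pos v.1.1 a + k) % deg v.1.1) := by
  induction k with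
  | zero => simp [Nat.mod_eq_of_lt (pos_spec v a h).1, (pos_spec v a h).2]
  | succ k ih =>
    rw [Function.iterate_succ_apply', ih, rho, pos_nb _ _ (Nat.mod_lt _ (deg_pos _)),
      Nat.mod_add_mod, add_assoc]

theorem fin_nb (v : W) : (G.neighborSet v).Finite := by
  refine ((Set.finite_lt_nat (deg v.1.1)).image (nb v.1.1)).subset fun a ha => ?_
  exact ⟨_, (pos_spec v a ha).1, (pos_spec v a ha).2⟩

theorem mech : IsMechanism G rho := by
  intro v
  have hm : Set.MapsTo (rho v) (G.neighborSet v) (G.neighborSet v) := fun a _ => nb_adj v _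
  refine ⟨((fin_nb v).surjOn_iff_bijOn_of_mapsTo hm).mp fun b hb => ?_, fun a ha b hb => ?_⟩
  · refine ⟨(rho v)^[deg v.1.1 - 1] b, hm.iterate _ hb, ?_⟩
    rw [← Function.iterate_succ_apply' (rho v), iter v b hb]
    have := deg_pos v.1.1
    rw [show (deg v.1.1 - 1).succ = deg v.1.1 by omega, Nat.add_mod_right,
      Nat.mod_eq_of_lt (pos_spec v b hb).1, (pos_spec v b hb).2]
  · refine ⟨deg v.1.1 - pos v.1.1 a + pos v.1.1 b, ?_⟩
    have := (pos_spec v a ha).1
    rw [iter v a ha, show pos v.1.1 a + (deg v.1.1 - pos v.1.1 a + pos v.1.1 b) =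
      pos v.1.1 b + deg v.1.1 by omega, Nat.add_mod_right,
      Nat.mod_eq_of_lt (pos_spec v b hb).1, (pos_spec v b hb).2]

theorem conn : G.Connected := by
  have : ∀ n, ∀ v : W, v.1.1 = n → G.Reachable v (mk 0 0) := by
    intro n
    induction n with
    | zero =>
      rintro ⟨⟨m, k⟩, hk⟩ h
      obtain rfl : m = 0 := h
      obtain rfl : k = 0 := by simpa using hk
      rfl
    | succ n ih =>
      intro v hv
      exact (SimpleGraph.Adj.reachable (show G.Adj v (mk n 0) from Or.inr hv.symm)).trans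
        (ih _ rfl)
  have hne : Nonempty W := ⟨mk 0 0⟩
  exact ⟨fun a b => (this _ a rfl).trans (this _ b rfl).symm⟩

noncomputable def phi (v a : W) : ℝ :=
  if v.1.1 = 0 then 0 else 3 / 5 * (1 / 3) ^ v.1.1 * ((pos v.1.1 a % 5 : ℕ) : ℝ)

theorem phi_nonneg (v a : W) : 0 ≤ phi v a := by
  unfold phi; split_ifs <;> positivity

theorem phi_le (v a : W) : phi v a ≤ 3 * (1 / 3) ^ v.1.1 := by
  unfold phi
  split_ifs
  · positivity
  · have : ((pos v.1.1 a % 5 : ℕ) : ℝ) ≤ 5 := by
      exact_mod_cast (Nat.mod_lt _ (by norm_num)).le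
    have h : (0 : ℝ) < (1 / 3) ^ v.1.1 := by positivity
    nlinarith

theorem drop (v a : W) (h : G.Adj v a) :
    (1 / 3 : ℝ) ^ (rho v a).1.1 + phi v (rho v a) + 1 / 15 * (1 / 3) ^ v.1.1 ≤
      (1 / 3) ^ v.1.1 + phi v a := by
  have h1 := (pos_spec v a h).1
  unfold phi
  rw [rho, pos_nb _ _ (Nat.mod_lt _ (deg_pos _))]
  obtain ⟨⟨n, i⟩, hi⟩ := v
  simp only at h1 ⊢
  generalize pos n a = j at h1 ⊢
  cases n with
  | zero => simp [nb, mk]; norm_num
  | succ n =>
    have h2 : (j + 1) % deg (n + 1) % 5 = (j + 1) % 5 :=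
      Nat.mod_mod_of_dvd _ (by simp [deg])
    have hp : (0 : ℝ) < (1 / 3) ^ n := by positivity
    simp only [nb, Nat.succ_ne_zero, if_false, h2]
    split_ifs with h3
    · have : j % 5 = 4 := by omega
      simp only [mk, h3, this, Nat.add_sub_cancel, pow_succ]
      push_cast
      linarith
    · have : (j + 1) % 5 = j % 5 + 1 := by omega
      simp only [mk, this, pow_succ]
      push_cast
      linarith

theorem step_ne {V : Type} (ρ : V → V → V) (s : V × (V → V)) {u : V} (h : u ≠ s.1) :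
    (step ρ s).2 u = s.2 u := by
  simp [step, h]

theorem step_eq {V : Type} (ρ : V → V → V) (s : V × (V → V)) :
    (step ρ s).2 s.1 = ρ s.1 (s.2 s.1) := by
  simp [step]

theorem result : ∃ (V : Type) (G : SimpleGraph V) (ρ : V → V → V),
    Infinite V ∧ G.Connected ∧ (∀ v, (G.neighborSet v).Finite) ∧ IsMechanism G ρ ∧
    ∀ r₀ : V → V, (∀ v, G.Adj v (r₀ v)) → ∀ x₀ v : V,
      {t : ℕ | ((step ρ)^[t] (x₀, r₀)).1 = v}.Finite := by
  classical
  refine ⟨W, G, rho, Infinite.of_injective (fun n => mk n 0) fun a b h =>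
    congrArg (fun p : W => p.1.1) h, conn, fin_nb, mech, fun r₀ hr x₀ v => ?_⟩
  set s : ℕ → W × (W → W) := fun t => (step rho)^[t] (x₀, r₀) with hs
  have hsucc : ∀ t, s (t + 1) = step rho (s t) := fun t => Function.iterate_succ_apply' _ _ _
  have hadj : ∀ t u, G.Adj u ((s t).2 u) := by
    intro t
    induction t with
    | zero => exact hr
    | succ t ih =>
      intro u
      rw [hsucc]
      by_cases h : u = (s t).1
      · subst h
        rw [step_eq]
        exact nb_adj _ _
      · rw [step_ne _ _ h]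
        exact ih u
  have key : ∀ (S : Finset W) (T : ℕ), (∀ t < T, (s t).1 ∈ S) →
      (1 / 3 : ℝ) ^ (s T).1.1.1 + ∑ u ∈ S, phi u ((s T).2 u) +
        ∑ t ∈ Finset.range T, 1 / 15 * (1 / 3) ^ (s t).1.1.1 ≤
      (1 / 3 : ℝ) ^ x₀.1.1 + ∑ u ∈ S, phi u (r₀ u) := by
    intro S T
    induction T with
    | zero => intro _; simp [hs]
    | succ T ih =>
      intro h
      have h1 := ih fun t ht => h t (by omega)
      have h2 := drop _ _ (hadj T (s T).1)
      have h3 := h T (by omega)
      rw [← Finset.add_sum_erase _ _ h3] at h1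
      rw [← Finset.add_sum_erase _ _ h3, Finset.sum_range_succ, hsucc]
      have h4 : ∑ u ∈ S.erase (s T).1, phi u ((step rho (s T)).2 u) =
          ∑ u ∈ S.erase (s T).1, phi u ((s T).2 u) :=
        Finset.sum_congr rfl fun u hu => by
          rw [step_ne _ _ (Finset.ne_of_mem_erase hu)]
      rw [h4, step_eq, show (step rho (s T)).1 = rho (s T).1 ((s T).2 (s T).1) from rfl]
      linarith
  have hb : ∀ S : Finset W, ∑ u ∈ S, phi u (r₀ u) ≤ 9 := by
    intro S
    obtain ⟨N, hN⟩ := (S.image fun u => u.1.1).bddAbove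
    have hN' : ∀ u ∈ S, u.1.1 ∈ Finset.range (N + 1) := fun u hu =>
      Finset.mem_range.mpr (Nat.lt_succ_of_le
        (hN (Finset.mem_coe.mpr (Finset.mem_image_of_mem _ hu))))
    rw [← Finset.sum_fiberwise_of_maps_to hN']
    calc _ ≤ ∑ n ∈ Finset.range (N + 1), 3 * (2 / 3 : ℝ) ^ n := by
          refine Finset.sum_le_sum fun n _ => ?_
          have h1 := Finset.sum_le_card_nsmul (S.filter fun u => u.1.1 = n)
            (fun u => phi u (r₀ u)) (3 * (1 / 3) ^ n) fun u hu => by
              rw [← (Finset.mem_filter.mp hu).2]; exact phi_le _ _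
          have h2 : (S.filter fun u => u.1.1 = n).card ≤ (Finset.range (2 ^ n)).card := by
            refine Finset.card_le_card_of_injOn (fun u => u.1.2) (fun u hu => ?_) ?_
            · have := u.2
              rw [(Finset.mem_filter.mp hu).2] at this
              simpa using this
            · intro a ha b hb hab
              exact Subtype.ext (Prod.ext
                ((Finset.mem_filter.mp ha).2.trans (Finset.mem_filter.mp hb).2.symm) hab)
          rw [Finset.card_range] at h2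
          have h3 : ((S.filter fun u => u.1.1 = n).card : ℝ) ≤ 2 ^ n := by exact_mod_cast h2
          rw [nsmul_eq_mul] at h1
          calc _ ≤ _ := h1
            _ ≤ 2 ^ n * (3 * (1 / 3) ^ n) := by gcongr
            _ = _ := by rw [show (2 / 3 : ℝ) = 2 * (1 / 3) by norm_num, mul_pow]; ring
      _ ≤ 9 := by
          rw [← Finset.mul_sum, geom_sum_eq (by norm_num)]
          have : (0 : ℝ) < (2 / 3) ^ (N + 1) := by positivity
          rw [show (2 / 3 - 1 : ℝ) = -1 / 3 by norm_num]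
          linarith
  by_contra hinf
  obtain ⟨F, hF, hcard⟩ := Set.Infinite.exists_subset_card_eq hinf (151 * 3 ^ v.1.1)
  obtain ⟨T, hT⟩ := F.bddAbove
  have h1 := key ((Finset.range (T + 1)).image fun t => (s t).1) (T + 1)
    fun t ht => Finset.mem_image_of_mem _ (Finset.mem_range.mpr ht)
  have h2 := hb ((Finset.range (T + 1)).image fun t => (s t).1)
  have h3 : ∑ t ∈ F, (1 / 15 * (1 / 3) ^ (s t).1.1.1 : ℝ) ≤
      ∑ t ∈ Finset.range (T + 1), 1 / 15 * (1 / 3) ^ (s t).1.1.1 :=
    Finset.sum_le_sum_of_subset_of_nonneg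
      (fun t ht => Finset.mem_range.mpr (Nat.lt_succ_of_le (hT ht))) fun _ _ _ => by positivity
  have h4 : ∑ t ∈ F, (1 / 15 * (1 / 3) ^ (s t).1.1.1 : ℝ) = 151 / 15 := by
    rw [Finset.sum_congr rfl (g := fun _ => (1 / 15 * (1 / 3) ^ v.1.1 : ℝ)) fun t ht => by
      rw [show (s t).1 = v from hF ht], Finset.sum_const, hcard, nsmul_eq_mul]
    push_cast
    rw [one_div_pow]
    field_simp
  have h5 : (1 / 3 : ℝ) ^ x₀.1.1 ≤ 1 := pow_le_one₀ (by norm_num) (by norm_num)
  have h6 : (0 : ℝ) ≤ (1 / 3) ^ (s (T + 1)).1.1.1 := by positivity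
  have h7 : 0 ≤ ∑ u ∈ (Finset.range (T + 1)).image fun t => (s t).1, phi u ((s (T + 1)).2 u) :=
    Finset.sum_nonneg fun _ _ => phi_nonneg _ _
  linarith

end Pool.Agent.Results.MP_c5a801_co.AllTransient
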